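import Mathlib
import Pool.Agent.H87.DLD2

namespace Pool.Agent.Results.MP_914893_an.Yes

/-- A real Banach space has the diametral diameter two property if and only if its dual has the
weak-star diametral diameter two property. -/
theorem result (X : Type*) [NormedAddCommGroup X] [NormedSpace ℝ X] [CompleteSpace X] :
    (∀ U : Set (WeakSpace ℝ X), IsOpen U → ∀ x : X, ‖x‖ = 1 → toWeakSpace ℝ X x ∈ U →
      ∀ ε : ℝ, 0 < ε → ∃ y : X, ‖y‖ ≤ 1 ∧ toWeakSpace ℝ X y ∈ U ∧ 2 - ε < ‖x - y‖) ↔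
    (∀ U : Set (WeakDual ℝ X), IsOpen U → ∀ f : StrongDual ℝ X, ‖f‖ = 1 →
      StrongDual.toWeakDual f ∈ U → ∀ ε : ℝ, 0 < ε →
        ∃ g : StrongDual ℝ X, ‖g‖ ≤ 1 ∧ StrongDual.toWeakDual g ∈ U ∧ 2 - ε < ‖f - g‖) :=
  (Pool.Agent.H87.DLD.dual X).symm

end Pool.Agent.Results.MP_914893_an.Yes
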